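import Pool.Agent.N963.GN.Stm5
import Pool.Agent.N868.GN.T6
import Pool.Agent.N558.GN.Z0

set_option autoImplicit false

/-!
# Task Z1: antiderivatives of the transform, the case of a kernel vanishing at the origin
-/

namespace Pool.Agent.N712.GN

open Complex Filter Topology MeasureTheory
open scoped ComplexConjugate FourierTransform
open Pool.Agent.N963.GN

variable {K : ℂ → ℂ} {α : ℝ}

/-- The kernel `K(w) (1 - i w / a) / (i w)`. -/
noncomputable def K1 (K : ℂ → ℂ) (a : ℝ) (w : ℂ) : ℂ := dslope K 0 w * (1 - I * w / a) * (-I)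

lemma K1_mul (K : ℂ → ℂ) (h0 : K 0 = 0) (a : ℝ) (w : ℂ) : K1 K a w * (I * w) = K w * (1 - I * w / a) := by
  have h1 : w * dslope K 0 w = K w := by
    have h2 := sub_smul_dslope K 0 w
    rw [h0, sub_zero, sub_zero, smul_eq_mul] at h2
    exact h2
  unfold K1
  calc dslope K 0 w * (1 - I * w / a) * (-I) * (I * w) =
      (w * dslope K 0 w) * (1 - I * w / a) * (-(I * I)) := by ring
    _ = K w * (1 - I * w / a) := by rw [h1, Complex.I_mul_I]; ring

lemma K1_norm (K : ℂ → ℂ) (h0 : K 0 = 0) (a : ℝ) (w : ℂ) : ‖K1 K a w‖ * ‖w‖ = ‖K w‖ * ‖1 - I * w / a‖ := by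
  have h1 := congrArg norm (K1_mul K h0 a w)
  rw [norm_mul, norm_mul, norm_mul, Complex.norm_I, one_mul] at h1
  exact h1

lemma norm_den {a : ℝ} (ha : 0 < a) (w : ℂ) : ‖1 - I * w / a‖ ≤ 1 + ‖w‖ / a := by
  refine (norm_sub_le _ _).trans ?_
  rw [norm_one, norm_div, norm_mul, Complex.norm_I, one_mul, Complex.norm_real, Real.norm_eq_abs,
    abs_of_pos ha]

lemma K1_le (h0 : K 0 = 0) {a r : ℝ} (ha : 0 < a) (hr : 0 < r) {w : ℂ} (hw : r ≤ ‖w‖) :
    ‖K1 K a w‖ ≤ (1 / r + 1 / a) * ‖K w‖ := by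
  have h1 := K1_norm K h0 a w
  have h2 := norm_den ha w
  have hw0 : 0 < ‖w‖ := lt_of_lt_of_le hr hw
  have h3 : 1 + ‖w‖ / a ≤ (1 / r + 1 / a) * ‖w‖ := by
    have h4 : 1 ≤ 1 / r * ‖w‖ := by
      rw [one_div, inv_mul_eq_div, le_div_iff₀ hr, one_mul]
      exact hw
    have h5 : ‖w‖ / a = 1 / a * ‖w‖ := by ring
    rw [h5]
    nlinarith
  have h6 : ‖K1 K a w‖ * ‖w‖ ≤ (1 / r + 1 / a) * ‖K w‖ * ‖w‖ := by
    rw [h1]
    calc ‖K w‖ * ‖1 - I * w / a‖ ≤ ‖K w‖ * ((1 / r + 1 / a) * ‖w‖) := by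
          gcongr
          exact h2.trans h3
      _ = (1 / r + 1 / a) * ‖K w‖ * ‖w‖ := by ring
  exact le_of_mul_le_mul_right h6 hw0

lemma K1_ge (h0 : K 0 = 0) {a R : ℝ} (hR : 0 < R) {w : ℂ} (hw0 : 0 < ‖w‖) (hw : ‖w‖ ≤ R)
    (hd : 1 / 2 ≤ ‖1 - I * w / a‖) : 1 / (2 * R) * ‖K w‖ ≤ ‖K1 K a w‖ := by
  have h1 := K1_norm K h0 a w
  have h2 : 1 / (2 * R) * ‖K w‖ * ‖w‖ ≤ ‖K1 K a w‖ * ‖w‖ := by
    rw [h1]
    calc 1 / (2 * R) * ‖K w‖ * ‖w‖ ≤ 1 / (2 * R) * ‖K w‖ * R := by gcongr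
      _ = ‖K w‖ * (1 / 2) := by
          field_simp
      _ ≤ _ := by gcongr
  exact le_of_mul_le_mul_right h2 hw0

lemma K1_diff (hK : Kern K α) (a : ℝ) {w : ℂ} (hw : |w.im| < α) : DifferentiableAt ℂ (K1 K a) w := by
  set s : Set ℂ := {w : ℂ | |w.im| < α} with hs
  have hso : IsOpen s := isOpen_lt (by fun_prop) continuous_const
  have h0 : s ∈ 𝓝 (0 : ℂ) := hso.mem_nhds (by simp [hs, hK.pos])
  have h1 : DifferentiableOn ℂ (dslope K 0) s := by
    rw [Complex.differentiableOn_dslope h0]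
    exact fun z hz => (hK.diff z hz).differentiableWithinAt
  have h2 : DifferentiableAt ℂ (dslope K 0) w := (h1 w hw).differentiableAt (hso.mem_nhds hw)
  unfold K1
  exact (h2.mul (by fun_prop)).mul (by fun_prop)

lemma K1_cont (hK : Kern K α) (a : ℝ) {t : ℝ} (ht : |t| < α) :
    Continuous (fun u : ℝ => K1 K a ((u : ℂ) + t * I)) := by
  rw [continuous_iff_continuousAt]
  intro u
  have h1 : ContinuousAt (K1 K a) ((u : ℂ) + t * I) := (K1_diff hK a (by simpa using ht)).continuousAt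
  exact ContinuousAt.comp (f := fun u : ℝ => ((u : ℂ) + t * I)) h1 (by fun_prop)

lemma K1_cont0 (hK : Kern K α) (a : ℝ) : Continuous (fun u : ℝ => K1 K a (u : ℂ)) := by
  have := K1_cont hK a (t := 0) (by simpa using hK.pos)
  simpa using this

lemma K1_herm (hK : Kern K α) (h0 : K 0 = 0) (a : ℝ) (u : ℝ) :
    K1 K a ((-u : ℝ) : ℂ) = conj (K1 K a (u : ℂ)) := by
  have hc1 : Continuous (fun u : ℝ => K1 K a ((-u : ℝ) : ℂ)) := (K1_cont0 hK a).comp continuous_neg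
  have hc2 : Continuous (fun u : ℝ => conj (K1 K a (u : ℂ))) :=
    Complex.continuous_conj.comp (K1_cont0 hK a)
  have h := Continuous.ext_on (dense_compl_singleton (0 : ℝ)) hc1 hc2 (fun v hv => ?_)
  · exact congrFun h u
  · have hv0 : v ≠ 0 := by simpa using hv
    have hv1 : (v : ℂ) ≠ 0 := by exact_mod_cast hv0
    have e1 := K1_mul K h0 a ((-v : ℝ) : ℂ)
    have e2 := congrArg conj (K1_mul K h0 a (v : ℂ))
    rw [map_mul, map_mul, map_mul, Complex.conj_I, Complex.conj_ofReal, ← hK.herm] at e2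
    have e3 : conj (1 - I * (v : ℂ) / a) = 1 - I * ((-v : ℝ) : ℂ) / a := by
      simp
    rw [e3, ← e1] at e2
    have e4 : I * ((-v : ℝ) : ℂ) = -I * (v : ℂ) := by push_cast; ring
    rw [e4] at e2
    exact (mul_right_cancel₀ (mul_ne_zero (neg_ne_zero.2 Complex.I_ne_zero) hv1) e2).symm

/-- A bound on a compact rectangle. -/
lemma K1_bdd (hK : Kern K α) (a : ℝ) {Y : ℝ} (hY : Y < α) :
    ∃ B : ℝ, 0 ≤ B ∧ ∀ w : ℂ, |w.re| ≤ 1 → |w.im| ≤ Y → ‖K1 K a w‖ ≤ B := by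
  have hc : IsCompact (Set.Icc (-1 : ℝ) 1 ×ℂ Set.Icc (-Y) Y) := isCompact_Icc.reProdIm isCompact_Icc
  have h1 : ContinuousOn (K1 K a) (Set.Icc (-1 : ℝ) 1 ×ℂ Set.Icc (-Y) Y) := by
    intro w hw
    have h2 : |w.im| ≤ Y := abs_le.2 hw.2
    exact (K1_diff hK a (h2.trans_lt hY)).continuousAt.continuousWithinAt
  obtain ⟨B, hB⟩ := hc.exists_bound_of_continuousOn h1
  refine ⟨max B 0, le_max_right _ _, fun w h2 h3 => (hB w ?_).trans (le_max_left _ _)⟩
  exact ⟨abs_le.1 h2, abs_le.1 h3⟩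

lemma re_le_norm_of {w : ℂ} (h : 1 ≤ |w.re|) : 1 ≤ ‖w‖ := h.trans (Complex.abs_re_le_norm w)

lemma K1_dec (hK : Kern K α) (h0 : K 0 = 0) {a : ℝ} (ha : 0 < a) {Y : ℝ} (hY0 : 0 ≤ Y) (hY : Y < α)
    (M : ℝ) : ∃ C : ℝ, 0 ≤ C ∧ ∀ w : ℂ, |w.im| ≤ Y → ‖K1 K a w‖ ≤ C * Real.exp (-(M * |w.re|)) := by
  obtain ⟨C, hC, hd⟩ := hK.dec Y hY0 hY M
  obtain ⟨B, hB, hb⟩ := K1_bdd hK a hY
  refine ⟨(1 / 1 + 1 / a) * C + B * Real.exp |M|, by positivity, fun w hw => ?_⟩
  rw [add_mul]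
  rcases le_total |w.re| 1 with h | h
  · have h1 : ‖K1 K a w‖ ≤ B * Real.exp |M| * Real.exp (-(M * |w.re|)) := by
      rw [mul_assoc, ← Real.exp_add]
      have h2 : 0 ≤ |M| + -(M * |w.re|) := by
        have h3 : M * |w.re| ≤ |M| * 1 :=
          mul_le_mul (le_abs_self M) h (abs_nonneg _) (abs_nonneg _)
        linarith
      have h4 : 1 ≤ Real.exp (|M| + -(M * |w.re|)) := Real.one_le_exp h2
      calc ‖K1 K a w‖ ≤ B * 1 := by rw [mul_one]; exact hb w h hw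
        _ ≤ _ := by gcongr
    have h5 : 0 ≤ (1 / 1 + 1 / a) * C * Real.exp (-(M * |w.re|)) := by positivity
    linarith
  · have h1 : ‖K1 K a w‖ ≤ (1 / 1 + 1 / a) * C * Real.exp (-(M * |w.re|)) := by
      calc ‖K1 K a w‖ ≤ (1 / 1 + 1 / a) * ‖K w‖ := K1_le h0 ha one_pos (re_le_norm_of h)
        _ ≤ (1 / 1 + 1 / a) * (C * Real.exp (-(M * |w.re|))) := by
            gcongr
            exact hd w hw
        _ = _ := by ring
    have h5 : 0 ≤ B * Real.exp |M| * Real.exp (-(M * |w.re|)) := by positivity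
    linarith

lemma le_rpow_three_halves {x : ℝ} (hx : 1 ≤ x) : x ≤ x ^ (3 / 2 : ℝ) := by
  calc x = x ^ (1 : ℝ) := (Real.rpow_one x).symm
    _ ≤ x ^ (3 / 2 : ℝ) := Real.rpow_le_rpow_of_exponent_le hx (by norm_num)

lemma K1_gro (hK : Kern K α) (h0 : K 0 = 0) {a : ℝ} (ha : 0 < a) :
    ∃ C : ℝ, 0 ≤ C ∧ ∀ R : ℝ, 0 ≤ R →
      ∫ u : ℝ, ‖K1 K a (u : ℂ)‖ * Real.exp (R * |u|) ≤ Real.exp (C * (1 + R) ^ (3 / 2 : ℝ)) := by
  obtain ⟨C, hC, hg⟩ := hK.gro
  obtain ⟨B, hB, hb⟩ := K1_bdd hK a hK.pos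
  set q : ℝ := 1 / 1 + 1 / a with hq
  have hq0 : 0 ≤ q := by rw [hq]; positivity
  have hL0 : 0 ≤ Real.log (1 + (2 * B + q)) := Real.log_nonneg (by linarith)
  refine ⟨1 + C + Real.log (1 + (2 * B + q)), by positivity, fun R hR => ?_⟩
  have hwt := Pool.Agent.N558.GN.k_wt hK
  have hint := (hwt.norm_int R).const_mul q
  set g : ℝ → ℝ := (Set.Icc (-1 : ℝ) 1).indicator (fun _ => B * Real.exp R) with hgdef
  have hgint : Integrable g := by
    rw [hgdef, integrable_indicator_iff measurableSet_Icc]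
    exact (continuous_const).integrableOn_Icc
  have hgval : ∫ u : ℝ, g u = 2 * B * Real.exp R := by
    rw [hgdef, integral_indicator measurableSet_Icc, setIntegral_const]
    simp
    ring
  have hle : ∀ u : ℝ, ‖K1 K a (u : ℂ)‖ * Real.exp (R * |u|) ≤
      g u + q * (‖K (u : ℂ)‖ * Real.exp (R * |u|)) := by
    intro u
    rcases le_total |u| 1 with h | h
    · have h1 : g u = B * Real.exp R := by
        rw [hgdef, Set.indicator_of_mem]
        exact abs_le.1 h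
      rw [h1]
      have h2 : ‖K1 K a (u : ℂ)‖ ≤ B := hb _ (by simpa using h) (by simp)
      have h3 : Real.exp (R * |u|) ≤ Real.exp R := by
        apply Real.exp_le_exp.2
        calc R * |u| ≤ R * 1 := by gcongr
          _ = R := mul_one R
      have h4 : ‖K1 K a (u : ℂ)‖ * Real.exp (R * |u|) ≤ B * Real.exp R := by gcongr
      have h5 : 0 ≤ q * (‖K (u : ℂ)‖ * Real.exp (R * |u|)) := by positivity
      linarith
    · have h1 : 0 ≤ g u := by
        rw [hgdef]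
        exact Set.indicator_nonneg (fun _ _ => by positivity) u
      have h2 : ‖K1 K a (u : ℂ)‖ ≤ q * ‖K (u : ℂ)‖ :=
        K1_le h0 ha one_pos (re_le_norm_of (by simpa using h))
      have h3 : ‖K1 K a (u : ℂ)‖ * Real.exp (R * |u|) ≤ q * ‖K (u : ℂ)‖ * Real.exp (R * |u|) := by
        gcongr
      linarith
  have hmono : ∫ u : ℝ, ‖K1 K a (u : ℂ)‖ * Real.exp (R * |u|) ≤
      ∫ u : ℝ, (g u + q * (‖K (u : ℂ)‖ * Real.exp (R * |u|))) := by
    refine integral_mono_of_nonneg (Eventually.of_forall fun u => by positivity)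
      (hgint.add hint) (Eventually.of_forall hle)
  rw [integral_add hgint hint, hgval, integral_const_mul] at hmono
  refine hmono.trans ?_
  set x : ℝ := (1 + R) ^ (3 / 2 : ℝ) with hx
  have hx1 : 1 + R ≤ x := le_rpow_three_halves (by linarith)
  have e1 : Real.exp R ≤ Real.exp ((1 + C) * x) := by
    apply Real.exp_le_exp.2
    nlinarith
  have e2 : ∫ u : ℝ, ‖K (u : ℂ)‖ * Real.exp (R * |u|) ≤ Real.exp ((1 + C) * x) := by
    refine (hg R hR).trans (Real.exp_le_exp.2 ?_)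
    nlinarith
  have e3 : 1 + (2 * B + q) ≤ Real.exp (Real.log (1 + (2 * B + q)) * x) := by
    have h1 : Real.log (1 + (2 * B + q)) * 1 ≤ Real.log (1 + (2 * B + q)) * x := by
      gcongr
      linarith
    calc 1 + (2 * B + q) = Real.exp (Real.log (1 + (2 * B + q)) * 1) := by
          rw [mul_one, Real.exp_log (by linarith)]
      _ ≤ _ := Real.exp_le_exp.2 h1
  calc 2 * B * Real.exp R + q * ∫ u : ℝ, ‖K (u : ℂ)‖ * Real.exp (R * |u|) ≤
      2 * B * Real.exp ((1 + C) * x) + q * Real.exp ((1 + C) * x) := by gcongr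
    _ = (2 * B + q) * Real.exp ((1 + C) * x) := by ring
    _ ≤ (1 + (2 * B + q)) * Real.exp ((1 + C) * x) := by
        have := Real.exp_pos ((1 + C) * x)
        nlinarith
    _ ≤ Real.exp (Real.log (1 + (2 * B + q)) * x) * Real.exp ((1 + C) * x) := by gcongr
    _ = Real.exp ((1 + C + Real.log (1 + (2 * B + q))) * x) := by
        rw [← Real.exp_add]
        congr 1
        ring

theorem K1_kern (hK : Kern K α) (h0 : K 0 = 0) {a : ℝ} (ha : 0 < a) : Kern (K1 K a) α where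
  pos := hK.pos
  diff := fun _ hw => K1_diff hK a hw
  herm := K1_herm hK h0 a
  dec := fun _ hY0 hY M => K1_dec hK h0 ha hY0 hY M
  gro := K1_gro hK h0 ha

/-- Square integrability on horizontal lines. -/
lemma sq_int (hK : Kern K α) {t : ℝ} (ht : |t| < α) :
    Continuous (fun u : ℝ => ‖K ((u : ℂ) + t * I)‖ ^ 2) ∧
    Integrable (fun u : ℝ => ‖K ((u : ℂ) + t * I)‖ ^ 2) ∧
    Integrable (fun u : ℝ => ‖K ((u : ℂ) + t * I)‖ ^ 2 / (1 + u ^ 2)) := by
  have hc : Continuous (fun u : ℝ => K ((u : ℂ) + t * I)) := by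
    rw [continuous_iff_continuousAt]
    intro u
    have h1 : ContinuousAt K ((u : ℂ) + t * I) := (hK.diff _ (by simpa using ht)).continuousAt
    exact ContinuousAt.comp (f := fun u : ℝ => ((u : ℂ) + t * I)) h1 (by fun_prop)
  obtain ⟨C, hC, hd⟩ := hK.dec |t| (abs_nonneg t) ht 1
  have hb : ∀ u : ℝ, ‖K ((u : ℂ) + t * I)‖ ≤ C * Real.exp (-|u|) := by
    intro u
    have h1 := hd ((u : ℂ) + t * I) (by simp)
    simpa using h1
  have h1 : Integrable (fun u : ℝ => ‖K ((u : ℂ) + t * I)‖ ^ 2) := by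
    refine ((exp_abs_integrable C).const_mul C).mono' (hc.norm.pow 2).aestronglyMeasurable
      (Eventually.of_forall fun u => ?_)
    rw [Real.norm_of_nonneg (by positivity), sq]
    have h2 := hb u
    have h3 : ‖K ((u : ℂ) + t * I)‖ ≤ C := by
      refine h2.trans ?_
      have : Real.exp (-|u|) ≤ 1 := Real.exp_le_one_iff.2 (by simp)
      nlinarith
    gcongr
  refine ⟨hc.norm.pow 2, h1, ?_⟩
  refine h1.mono' ?_ (Eventually.of_forall fun u => ?_)
  · refine Continuous.aestronglyMeasurable ?_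
    exact (hc.norm.pow 2).div (by fun_prop) (fun u => by positivity)
  · rw [Real.norm_of_nonneg (by positivity)]
    exact div_le_self (by positivity) (by nlinarith [sq_nonneg u])

theorem K1_MS (hK : Kern K α) (h0 : K 0 = 0) (hM : MS K α) : MS (K1 K (2 * α)) α := by
  have hα := hK.pos
  have ha : 0 < 2 * α := by linarith
  have hK1 := K1_kern hK h0 ha
  obtain ⟨C, c, p, δ0, hC, hc, hp, hδ0, hδα, hδ1, h⟩ := hM
  set q : ℝ := 1 / (α / 2) + 1 / (2 * α) with hq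
  have hq0 : 0 < q := by rw [hq]; positivity
  set r : ℝ := 1 / (2 * (1 + α)) with hr
  have hr0 : 0 < r := by rw [hr]; positivity
  refine ⟨q ^ 2 * C, r ^ 2 * c, p, min δ0 (α / 2), by positivity, by positivity, hp,
    lt_min hδ0 (by linarith), (min_le_left _ _).trans_lt hδα, (min_le_left _ _).trans_lt hδ1,
    fun δ hδ hδ' σ hσ => ?_⟩
  have hδa : δ ≤ α / 2 := hδ'.trans (min_le_right _ _)
  obtain ⟨h1, h2, h3⟩ := h δ hδ (hδ'.trans (min_le_left _ _)) σ hσ
  set t : ℝ := σ * (α - δ) with ht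
  have htabs : |t| = α - δ := by
    rw [ht, abs_mul, abs_of_pos (show 0 < α - δ by linarith)]
    rcases hσ with hs | hs <;> rw [hs] <;> simp
  have htα : |t| < α := by rw [htabs]; linarith
  have htge : α / 2 ≤ |t| := by rw [htabs]; linarith
  obtain ⟨k0, k1, k2⟩ := sq_int hK htα
  obtain ⟨j0, j1, j2⟩ := sq_int hK1 htα
  have hnorm : ∀ u : ℝ, α / 2 ≤ ‖(u : ℂ) + t * I‖ := by
    intro u
    refine htge.trans ?_
    have := Complex.abs_im_le_norm ((u : ℂ) + t * I)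
    simpa using this
  have hup : ∀ u : ℝ, ‖K1 K (2 * α) ((u : ℂ) + t * I)‖ ^ 2 ≤ q ^ 2 * ‖K ((u : ℂ) + t * I)‖ ^ 2 := by
    intro u
    rw [← mul_pow]
    exact pow_le_pow_left₀ (norm_nonneg _) (K1_le h0 ha (by linarith) (hnorm u)) 2
  refine ⟨?_, ?_, ?_⟩
  · calc ∫ u : ℝ, ‖K1 K (2 * α) ((u : ℂ) + t * I)‖ ^ 2 / (1 + u ^ 2) ≤
        ∫ u : ℝ, q ^ 2 * (‖K ((u : ℂ) + t * I)‖ ^ 2 / (1 + u ^ 2)) := by
          refine integral_mono j2 (k2.const_mul _) fun u => ?_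
          simp only
          rw [← mul_div_assoc]
          gcongr
          exact hup u
      _ = q ^ 2 * ∫ u : ℝ, ‖K ((u : ℂ) + t * I)‖ ^ 2 / (1 + u ^ 2) := integral_const_mul _ _
      _ ≤ q ^ 2 * (C * δ ^ (-p)) := by gcongr
      _ = q ^ 2 * C * δ ^ (-p) := by ring
  · calc ∫ u : ℝ, ‖K1 K (2 * α) ((u : ℂ) + t * I)‖ ^ 2 ≤
        ∫ u : ℝ, q ^ 2 * ‖K ((u : ℂ) + t * I)‖ ^ 2 := integral_mono j1 (k1.const_mul _) hup
      _ = q ^ 2 * ∫ u : ℝ, ‖K ((u : ℂ) + t * I)‖ ^ 2 := integral_const_mul _ _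
      _ ≤ q ^ 2 * (C * δ ^ (-p) * Real.log (1 / δ)) := by gcongr
      _ = q ^ 2 * C * δ ^ (-p) * Real.log (1 / δ) := by ring
  · have hlow : ∀ u ∈ Set.Icc (0 : ℝ) 1,
        r ^ 2 * ‖K ((u : ℂ) + t * I)‖ ^ 2 ≤ ‖K1 K (2 * α) ((u : ℂ) + t * I)‖ ^ 2 := by
      intro u hu
      rw [← mul_pow]
      refine pow_le_pow_left₀ (by positivity) ?_ 2
      refine K1_ge h0 (by linarith) (lt_of_lt_of_le (by linarith) (hnorm u)) ?_ ?_
      · refine (Complex.norm_le_abs_re_add_abs_im _).trans ?_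
        have e1 : ((u : ℂ) + t * I).re = u := by simp
        have e2 : ((u : ℂ) + t * I).im = t := by simp
        rw [e1, e2, abs_of_nonneg hu.1]
        linarith [hu.2]
      · have e1 := Complex.re_le_norm (1 - I * ((u : ℂ) + t * I) / ((2 * α : ℝ) : ℂ))
        rw [den_re] at e1
        have e2 : ((u : ℂ) + t * I).im = t := by simp
        rw [e2] at e1
        refine le_trans ?_ e1
        have e3 : -(1 / 2) ≤ t / (2 * α) := by
          rw [le_div_iff₀ ha]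
          have := neg_abs_le t
          linarith
        linarith
    calc r ^ 2 * c * δ ^ (-p) = r ^ 2 * (c * δ ^ (-p)) := by ring
      _ ≤ r ^ 2 * ∫ u in (0 : ℝ)..1, ‖K ((u : ℂ) + t * I)‖ ^ 2 := by gcongr
      _ = ∫ u in (0 : ℝ)..1, r ^ 2 * ‖K ((u : ℂ) + t * I)‖ ^ 2 :=
          (intervalIntegral.integral_const_mul _ _).symm
      _ ≤ ∫ u in (0 : ℝ)..1, ‖K1 K (2 * α) ((u : ℂ) + t * I)‖ ^ 2 := by
          refine intervalIntegral.integral_mono_on zero_le_one ?_ ?_ hlow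
          · exact (k0.const_mul _).intervalIntegrable _ _
          · exact j0.intervalIntegrable _ _

/-- The transform of an integrable weight tends to zero on the real line. -/
lemma Lt_tendsto {h : ℝ → ℂ} : Tendsto (fun x : ℝ => Lt h (x : ℂ)) atTop (𝓝 0) := by
  have h1 : (fun x : ℝ => Lt h (x : ℂ)) = fun x : ℝ => 𝓕 h (-(x / (2 * Real.pi))) := by
    funext x
    rw [← fourier_neg_eq h x]
    rfl
  rw [h1]
  refine (Real.zero_at_infty_fourier h).comp ?_
  have hpi : (0 : ℝ) < 2 * Real.pi := by positivity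
  have h2 : Tendsto (fun x : ℝ => -(x / (2 * Real.pi))) atTop atBot :=
    tendsto_neg_atTop_atBot.comp (tendsto_id.atTop_div_const hpi)
  exact h2.mono_right (by rw [cocompact_eq_atBot_atTop]; exact le_sup_left)

theorem Z1 : S_Z1 := by
  intro K α hK hM h0 G hG hG' hSL
  have hα := hK.pos
  have ha : 0 < 2 * α := by linarith
  have hK1 := K1_kern hK h0 ha
  set k : ℝ → ℂ := fun u : ℝ => Ka (K1 K (2 * α)) (2 * α) (u : ℂ) with hk
  have hT : ¬ SL (Lt k) := Pool.Agent.N868.GN.t_T6 (K1 K (2 * α)) α hK1 (K1_MS hK h0 hM) (2 * α) ha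
  have hkwt : Wt k := wt_real hK1 ha
  set X : ℂ → ℂ := Lt (fun u : ℝ => K (u : ℂ)) with hX
  have hwt := Pool.Agent.N558.GN.k_wt hK
  have hdG : deriv G = X := funext hG'
  have hdX : deriv X = Lt (fun u : ℝ => K (u : ℂ) * (I * u)) := deriv_Lt hwt
  have hdH : deriv (Lt k) = X := by
    rw [deriv_Lt hkwt, hX]
    congr 1
    funext u
    rw [hk]
    simp only [Ka]
    have h1 : (1 : ℂ) - I * (u : ℂ) / ((2 * α : ℝ) : ℂ) ≠ 0 := den_ne ha (by simp)
    rw [div_mul_eq_mul_div, K1_mul K h0, mul_div_assoc, div_self h1, mul_one]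
  have hH : Differentiable ℂ (Lt k) := diff_Lt hkwt
  have hdiff : ∀ z w : ℂ, G z - Lt k z = G w - Lt k w := by
    refine is_const_of_deriv_eq_zero (hG.sub hH) fun z => ?_
    have h1 := ((hG z).hasDerivAt.sub (hH z).hasDerivAt).deriv
    rw [hdG, hdH, sub_self] at h1
    exact h1
  set c : ℂ := G 0 - Lt k 0 with hc
  have hGc : ∀ z : ℂ, G z = Lt k z + c := by
    intro z
    have := hdiff z 0
    rw [← hc] at this
    rw [← this]
    ring
  have hXt : Tendsto (fun x : ℝ => X (x : ℂ)) atTop (𝓝 0) := Lt_tendsto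
  have hX't : Tendsto (fun x : ℝ => deriv X (x : ℂ)) atTop (𝓝 0) := by
    rw [hdX]
    exact Lt_tendsto
  have hGt : Tendsto (fun x : ℝ => G (x : ℂ)) atTop (𝓝 c) := by
    have h1 : Tendsto (fun x : ℝ => Lt k (x : ℂ)) atTop (𝓝 0) := Lt_tendsto
    have h2 := h1.add_const c
    rw [zero_add] at h2
    exact h2.congr fun x => (hGc x).symm
  have hR : Tendsto (fun x : ℝ => ((X (x : ℂ)) ^ 2 - G (x : ℂ) * deriv X (x : ℂ)).re) atTop (𝓝 0) := by
    have h1 := (hXt.pow 2).sub (hGt.mul hX't)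
    have h2 : (0 : ℂ) ^ 2 - c * 0 = 0 := by ring
    rw [h2] at h1
    have h3 := (Complex.continuous_re.tendsto (0 : ℂ)).comp h1
    rw [Complex.zero_re] at h3
    exact h3
  have hN : Tendsto (fun x : ℝ => ‖G (x : ℂ)‖ ^ 2) atTop (𝓝 0) := by
    obtain ⟨x1, hx1, hL⟩ := hSL 1
    refine squeeze_zero' (Eventually.of_forall fun x => by positivity) ?_ hR
    filter_upwards [eventually_ge_atTop (max x1 (Real.exp 1))] with x hx
    have hx0 : 0 < x := lt_of_lt_of_le (Real.exp_pos 1) ((le_max_right _ _).trans hx)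
    have habs : |x| = x := abs_of_pos hx0
    have h1 := hL x (by rw [habs]; exact (le_max_left _ _).trans hx)
    have h2 : 1 ≤ Real.log x := by
      have h3 : Real.exp 1 ≤ x := (le_max_right _ _).trans hx
      have h4 := Real.log_le_log (Real.exp_pos 1) h3
      rwa [Real.log_exp] at h4
    rw [one_mul, habs, hdG] at h1
    refine le_trans ?_ h1
    have h5 : 0 ≤ ‖G (x : ℂ)‖ ^ 2 := by positivity
    nlinarith
  have hc0 : c = 0 := by
    have h1 := (hGt.norm.pow 2)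
    have h2 := tendsto_nhds_unique h1 hN
    have h3 : ‖c‖ = 0 := by
      exact pow_eq_zero_iff (two_ne_zero) |>.1 h2
    exact norm_eq_zero.1 h3
  have hGH : G = Lt k := by
    funext z
    rw [hGc z, hc0, add_zero]
  rw [hGH] at hSL
  exact hT hSL

end Pool.Agent.N712.GN
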